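import Mathlib

set_option autoImplicit false

namespace Pool.MP_59b15d_al.H24

instance isJacobsonRing_int : IsJacobsonRing ℤ := by
  rw [isJacobsonRing_iff_prime_eq]
  intro P hP
  by_cases h0 : P = ⊥
  · subst h0
    rw [eq_bot_iff]
    intro x hx
    rw [Ideal.mem_jacobson_bot] at hx
    rw [Ideal.mem_bot]
    by_contra hne
    have h1 := hx (3 * x)
    rw [Int.isUnit_iff] at h1
    have hx2 : 1 ≤ x ^ 2 := by
      have : 0 < x ^ 2 := by positivity
      omega
    rcases h1 with h1 | h1
    · nlinarith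
    · nlinarith
  · have hmax : P.IsMaximal := hP.isMaximal h0
    exact Ideal.jacobson_eq_self_of_isMaximal

/-- Finitely generated commutative rings have finite residue fields. -/
theorem finite_quotient {A : Type*} [CommRing A] [Algebra.FiniteType ℤ A]
    (m : Ideal A) [hm : m.IsMaximal] : Finite (A ⧸ m) := by
  let : Field (A ⧸ m) := Ideal.Quotient.field m
  have : Algebra.FiniteType ℤ (A ⧸ m) :=
    Algebra.FiniteType.of_surjective (Ideal.Quotient.mkₐ ℤ m) (Ideal.Quotient.mkₐ_surjective ℤ m)
  have : Module.Finite ℤ (A ⧸ m) := finite_of_finite_type_of_isJacobsonRing ℤ (A ⧸ m)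
  apply Module.finite_of_fg_torsion
  obtain ⟨p, hp⟩ := CharP.exists (A ⧸ m)
  have hp0 : p ≠ 0 := by
    rintro rfl
    have : CharZero (A ⧸ m) := CharP.charP_to_charZero _
    have : Algebra.IsIntegral ℤ (A ⧸ m) := Algebra.IsIntegral.of_finite ℤ (A ⧸ m)
    have hinj : Function.Injective (algebraMap ℤ (A ⧸ m)) := (algebraMap ℤ (A ⧸ m)).injective_int
    exact Int.not_isField (isField_of_isIntegral_of_isField hinj (Field.toIsField (A ⧸ m)))
  intro x
  refine ⟨⟨(p : ℤ), mem_nonZeroDivisors_of_ne_zero (by exact_mod_cast hp0)⟩, ?_⟩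
  change (p : ℤ) • x = 0
  rw [zsmul_eq_mul]
  simp

/-- Finitely generated commutative rings are residually finite. -/
theorem exists_finite_quotient_avoiding {A : Type*} [CommRing A] [Algebra.FiniteType ℤ A]
    (x : A) (hx : x ≠ 0) : ∃ m : Ideal A, x ∉ m ∧ Finite (A ⧸ m) := by
  have hN : IsNoetherianRing A := Algebra.FiniteType.isNoetherianRing ℤ A
  have hann : (Ideal.span {x}).annihilator ≠ ⊤ := by
    intro h
    have h1 : (1 : A) ∈ (Ideal.span {x}).annihilator := by rw [h]; trivial
    rw [Submodule.mem_annihilator] at h1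
    have := h1 x (Ideal.mem_span_singleton_self x)
    exact hx (by simpa using this)
  obtain ⟨m, hm, hle⟩ := Ideal.exists_le_maximal _ hann
  have hfin : Finite (A ⧸ m) := finite_quotient m
  have hk : ∃ k : ℕ, x ∉ m ^ k := by
    by_contra hall
    push Not at hall
    have hmem : x ∈ (⨅ i : ℕ, m ^ i • (⊤ : Submodule A A)) := by
      rw [Submodule.mem_iInf]
      intro i
      rw [smul_eq_mul, Ideal.mul_top]
      exact hall i
    rw [Ideal.mem_iInf_smul_pow_eq_bot_iff] at hmem
    obtain ⟨r, hr⟩ := hmem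
    have h1 : (1 - (r : A)) ∈ (Ideal.span {x}).annihilator := by
      rw [Submodule.mem_annihilator]
      intro y hy
      obtain ⟨a, rfl⟩ := Ideal.mem_span_singleton'.mp hy
      have : (r : A) * x = x := hr
      rw [smul_eq_mul]
      linear_combination (-a) * this
    have h2 : (1 : A) ∈ m := by
      have := m.add_mem (hle h1) r.2
      simpa using this
    exact hm.ne_top ((Ideal.eq_top_iff_one m).mpr h2)
  obtain ⟨k, hk⟩ := hk
  exact ⟨m ^ k, hk, Ideal.finite_quotient_pow (IsNoetherian.noetherian m) k⟩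

end Pool.MP_59b15d_al.H24
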