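import Mathlib
import Pool.Agent.H.MP_59b15d_al.h24.Alg

set_option autoImplicit false

namespace Pool.MP_59b15d_al.H24

open MvPolynomial

theorem finite_hom {G Q : Type*} [Group G] [Group.FG G] [Group Q] [Finite Q] :
    Finite (G →* Q) := by
  obtain ⟨S, hS⟩ := Group.fg_def.mp (inferInstance : Group.FG G)
  let r : (G →* Q) → (S → Q) := fun f s => f s
  apply Finite.of_injective r
  intro f g hfg
  refine MonoidHom.eq_of_eqOn_dense hS (fun x hx => ?_)
  exact congrFun hfg ⟨x, hx⟩

theorem exists_characteristic_le {G : Type*} [Group G] [Group.FG G] (N : Subgroup G)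
    [hN : N.FiniteIndex] :
    ∃ Γ : Subgroup G, Γ.Characteristic ∧ Γ.FiniteIndex ∧ Γ ≤ N := by
  have : Finite (G ⧸ N) := Subgroup.finite_quotient_of_finiteIndex
  have hfin : Finite (G →* Equiv.Perm (G ⧸ N)) := finite_hom
  refine ⟨⨅ f : G →* Equiv.Perm (G ⧸ N), f.ker, ?_, ?_, ?_⟩
  · rw [Subgroup.characteristic_iff_le_comap]
    intro φ x hx
    rw [Subgroup.mem_comap, Subgroup.mem_iInf]
    intro f
    rw [Subgroup.mem_iInf] at hx
    have := hx (f.comp φ.toMonoidHom)
    rw [MonoidHom.mem_ker] at this ⊢
    exact this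
  · apply Subgroup.finiteIndex_iInf
    intro f
    exact Subgroup.finiteIndex_ker f
  · intro x hx
    rw [Subgroup.mem_iInf] at hx
    have := hx (MulAction.toPermHom G (G ⧸ N))
    rw [MonoidHom.mem_ker] at this
    have h2 : (MulAction.toPermHom G (G ⧸ N) x) ((1 : G) : G ⧸ N) = ((1 : G) : G ⧸ N) := by
      rw [this]; rfl
    rw [MulAction.toPermHom_apply, MulAction.toPerm_apply] at h2
    change ((x * 1 : G) : G ⧸ N) = ((1 : G) : G ⧸ N) at h2
    rw [mul_one] at h2
    have h3 := (QuotientGroup.eq (s := N) (a := x) (b := 1)).mp h2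
    rw [mul_one] at h3
    exact (Subgroup.inv_mem_iff N).mp h3

/-- The specialisation lemma: if a polynomial in the matrix entries does not vanish at a
representation `ρ` over a commutative ring, then it does not vanish at `θ`, for all maps `θ` that are
trivial modulo a suitable finite-index subgroup. -/
theorem key {K : Type*} [Group K] [Group.FG K] {n : ℕ} {B : Type*} [CommRing B]
    (ρ : K →* GL (Fin n) B) (P : MvPolynomial (K × Fin n × Fin n) B)
    (h : eval (fun v : K × Fin n × Fin n => (ρ v.1 : Matrix (Fin n) (Fin n) B) v.2.1 v.2.2) P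
      ≠ 0) :
    ∃ N : Subgroup K, N.FiniteIndex ∧ ∀ θ : K → K, (∀ k, k⁻¹ * θ k ∈ N) →
      eval (fun v : K × Fin n × Fin n => (ρ (θ v.1) : Matrix (Fin n) (Fin n) B) v.2.1 v.2.2) P
        ≠ 0 := by
  classical
  obtain ⟨S, hS⟩ := Group.fg_def.mp (inferInstance : Group.FG K)
  -- the finite set of elements generating the ring
  let T : Finset B := (S.biUnion fun s => Finset.univ.biUnion fun i => Finset.univ.biUnion fun j =>
      ({(ρ s : Matrix (Fin n) (Fin n) B) i j, (ρ s⁻¹ : Matrix (Fin n) (Fin n) B) i j} : Finset B))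
      ∪ P.coeffs
  let A : Subalgebra ℤ B := Algebra.adjoin ℤ (T : Set B)
  have hfgA : Algebra.FiniteType ℤ A := by
    rw [← Subalgebra.fg_iff_finiteType]
    exact ⟨T, rfl⟩
  have hT : ∀ x ∈ T, x ∈ A := fun x hx => Algebra.subset_adjoin hx
  have hentries : ∀ k : K, (∀ i j, (ρ k : Matrix (Fin n) (Fin n) B) i j ∈ A) ∧
      (∀ i j, (ρ k⁻¹ : Matrix (Fin n) (Fin n) B) i j ∈ A) := by
    intro k
    have hk : k ∈ Subgroup.closure (S : Set K) := by rw [hS]; trivial
    induction hk using Subgroup.closure_induction with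
    | mem x hx =>
      constructor
      · intro i j
        apply hT
        simp only [T, Finset.mem_union, Finset.mem_biUnion]
        exact Or.inl ⟨x, hx, i, Finset.mem_univ _, j, Finset.mem_univ _, by simp⟩
      · intro i j
        apply hT
        simp only [T, Finset.mem_union, Finset.mem_biUnion]
        exact Or.inl ⟨x, hx, i, Finset.mem_univ _, j, Finset.mem_univ _, by simp⟩
    | one =>
      constructor
      · intro i j
        rw [map_one, Units.val_one, Matrix.one_apply]
        split_ifs
        · exact A.one_mem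
        · exact A.zero_mem
      · intro i j
        rw [inv_one, map_one, Units.val_one, Matrix.one_apply]
        split_ifs
        · exact A.one_mem
        · exact A.zero_mem
    | mul x y _ _ hx hy =>
      constructor
      · intro i j
        rw [map_mul, Units.val_mul, Matrix.mul_apply]
        exact A.sum_mem fun c _ => A.mul_mem (hx.1 _ _) (hy.1 _ _)
      · intro i j
        rw [mul_inv_rev, map_mul, Units.val_mul, Matrix.mul_apply]
        exact A.sum_mem fun c _ => A.mul_mem (hy.2 _ _) (hx.2 _ _)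
    | inv x _ hx =>
      refine ⟨hx.2, ?_⟩
      rw [inv_inv]
      exact hx.1
  -- lift of ρ
  let r : K →* Matrix (Fin n) (Fin n) A :=
    { toFun := fun k => Matrix.of fun i j => (⟨_, (hentries k).1 i j⟩ : A)
      map_one' := by
        ext i j
        rw [Matrix.of_apply, Matrix.one_apply]
        change (ρ 1 : Matrix (Fin n) (Fin n) B) i j = _
        rw [map_one, Units.val_one, Matrix.one_apply]
        split_ifs <;> rfl
      map_mul' := by
        intro x y
        ext i j
        rw [Matrix.of_apply, Matrix.mul_apply]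
        change (ρ (x * y) : Matrix (Fin n) (Fin n) B) i j = _
        rw [map_mul, Units.val_mul, Matrix.mul_apply]
        push_cast
        rfl }
  -- lift of P
  obtain ⟨P', hP'⟩ : ∃ P' : MvPolynomial (K × Fin n × Fin n) A,
      MvPolynomial.map A.val.toRingHom P' = P := by
    have : P ∈ Set.range (MvPolynomial.map (σ := K × Fin n × Fin n) A.val.toRingHom) := by
      rw [MvPolynomial.mem_range_map_iff_coeffs_subset]
      intro c hc
      exact ⟨⟨c, hT c (by simp only [T, Finset.mem_union]; exact Or.inr hc)⟩, rfl⟩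
    exact this
  have heval : ∀ τ : K → K,
      eval (fun v : K × Fin n × Fin n => (ρ (τ v.1) : Matrix (Fin n) (Fin n) B) v.2.1 v.2.2) P
        = ((eval (fun v : K × Fin n × Fin n => r (τ v.1) v.2.1 v.2.2) P' : A) : B) := by
    intro τ
    rw [← hP', MvPolynomial.eval_map]
    have := (MvPolynomial.eval₂_comp_left A.val.toRingHom (RingHom.id A)
      (fun v : K × Fin n × Fin n => r (τ v.1) v.2.1 v.2.2) P').symm
    exact this
  rw [heval (fun k => k)] at h
  have h' : eval (fun v : K × Fin n × Fin n => r v.1 v.2.1 v.2.2) P' ≠ 0 := by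
    intro h0
    apply h
    rw [h0]
    rfl
  obtain ⟨m, hxm, hfin⟩ := exists_finite_quotient_avoiding _ h'
  let π := Ideal.Quotient.mk m
  let rbar : K →* Matrix (Fin n) (Fin n) (A ⧸ m) := (RingHom.mapMatrix π : _ →+* _).toMonoidHom.comp r
  have hfinM : Finite (Matrix (Fin n) (Fin n) (A ⧸ m)) := by
    unfold Matrix; infer_instance
  have hfinU : Finite (Matrix (Fin n) (Fin n) (A ⧸ m))ˣ := inferInstance
  refine ⟨rbar.toHomUnits.ker, Subgroup.finiteIndex_ker _, ?_⟩
  intro θ' hθ' h0
  rw [heval] at h0
  have h0' : eval (fun v : K × Fin n × Fin n => r (θ' v.1) v.2.1 v.2.2) P' = 0 := by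
    apply Subtype.ext
    exact h0
  apply hxm
  rw [← Ideal.Quotient.eq_zero_iff_mem]
  have hcongr : ∀ τ : K → K, π (eval (fun v : K × Fin n × Fin n => r (τ v.1) v.2.1 v.2.2) P') =
      eval₂ π (fun v : K × Fin n × Fin n => rbar (τ v.1) v.2.1 v.2.2) P' := by
    intro τ
    exact (MvPolynomial.eval₂_comp_left π (RingHom.id A)
      (fun v : K × Fin n × Fin n => r (τ v.1) v.2.1 v.2.2) P')
  have heq : ∀ k, rbar k = rbar (θ' k) := by
    intro k
    have h1 := hθ' k
    rw [MonoidHom.mem_ker, map_mul, map_inv, inv_mul_eq_one] at h1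
    have h2 := congrArg Units.val h1
    exact h2
  change π _ = 0
  have hfun : (fun v : K × Fin n × Fin n => rbar v.1 v.2.1 v.2.2) =
      fun v : K × Fin n × Fin n => rbar (θ' v.1) v.2.1 v.2.2 :=
    funext fun v => congrFun (congrFun (heq v.1) v.2.1) v.2.2
  rw [hcongr (fun k => k), hfun, ← hcongr θ', h0', map_zero]

end Pool.MP_59b15d_al.H24
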