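import Mathlib
import Pool.Agent.H.MP_59b15d_al.h24.Grp

set_option autoImplicit false

namespace Pool.MP_59b15d_al.H24

open MvPolynomial

section Defs

variable {G : Type*} [Group G] (K : Subgroup G) [K.Characteristic]

/-- The restriction to a characteristic subgroup `K` of an automorphism of `G`. -/
def res (φ : MulAut G) : K →* K where
  toFun k := ⟨φ k, by
    have h := Subgroup.characteristic_iff_le_comap.mp (inferInstance : K.Characteristic) φ k.2
    simpa using h⟩
  map_one' := by ext; simp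
  map_mul' x y := by ext; simp

@[simp] theorem coe_res (φ : MulAut G) (k : K) : ((res K φ k : K) : G) = φ k := rfl

theorem res_mul (φ ψ : MulAut G) : res K (φ * ψ) = (res K φ).comp (res K ψ) := by
  ext k; rfl

theorem res_one : res K (1 : MulAut G) = MonoidHom.id K := by
  ext k; rfl

/-- The polynomials `x_{1,i,j} - δ_{ij}` and `x_{gh,i,j} - ∑_c x_{g,i,c} x_{h,c,j}` in the variables
`x_{g,i,j}`, `g ∈ K`, `1 ≤ i, j ≤ n`.  The quotient of the polynomial ring over `R` by the ideal they
generate is the coordinate ring of the scheme `Hom(K, GL_n)` over `R`. -/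
def relations (n : ℕ) (R : Type*) [CommRing R] : Set (MvPolynomial (K × Fin n × Fin n) R) :=
  {p | ∃ i j, p = X (1, i, j) - C ((1 : Matrix (Fin n) (Fin n) R) i j)} ∪
  {p | ∃ g h i j, p = X (g * h, i, j) - ∑ c, X (g, i, c) * X (h, c, j)}

variable {K}

/-- The action of an automorphism `φ` of `G` on the polynomial ring in the matrix entries
`x_{g,i,j}`, `g ∈ K`; it sends `x_{g,i,j}` to `x_{φ(g),i,j}`. -/
noncomputable def subst {n : ℕ} {R : Type*} [CommRing R] (φ : MulAut G) :
    MvPolynomial (K × Fin n × Fin n) R →ₐ[R] MvPolynomial (K × Fin n × Fin n) R :=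
  MvPolynomial.rename (fun v => (res K φ v.1, v.2))

theorem subst_mul {n : ℕ} {R : Type*} [CommRing R] (φ ψ : MulAut G)
    (p : MvPolynomial (K × Fin n × Fin n) R) : subst (φ * ψ) p = subst φ (subst ψ p) := by
  rw [subst, subst, subst, MvPolynomial.rename_rename]
  rfl

theorem subst_one {n : ℕ} {R : Type*} [CommRing R]
    (p : MvPolynomial (K × Fin n × Fin n) R) : subst (1 : MulAut G) p = p := by
  have : (fun v : K × Fin n × Fin n => (res K (1 : MulAut G) v.1, v.2)) = id := by
    funext v; rfl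
  rw [subst, this, MvPolynomial.rename_id_apply]

/-- The stabilizer in `Aut(G)` of an ideal of the polynomial ring in the matrix entries. -/
def idealStab {n : ℕ} {R : Type*} [CommRing R] (J : Ideal (MvPolynomial (K × Fin n × Fin n) R)) :
    Subgroup (MulAut G) where
  carrier := {φ | ∀ p, subst φ p ∈ J ↔ p ∈ J}
  one_mem' := by
    intro p
    rw [subst_one]
  mul_mem' := by
    intro φ ψ hφ hψ p
    rw [subst_mul]
    exact (hφ _).trans (hψ p)
  inv_mem' := by
    intro φ hφ p
    have h := hφ (subst φ⁻¹ p)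
    rw [← subst_mul, mul_inv_cancel, subst_one] at h
    exact h.symm

theorem mem_idealStab {n : ℕ} {R : Type*} [CommRing R]
    {J : Ideal (MvPolynomial (K × Fin n × Fin n) R)} {φ : MulAut G} :
    φ ∈ idealStab J ↔ ∀ p, subst φ p ∈ J ↔ p ∈ J := Iff.rfl

end Defs

section Main

/-- The tautological representation over the quotient ring. -/
theorem exists_taut {K : Type*} [Group K] {n : ℕ} {R : Type*} [CommRing R]
    (J : Ideal (MvPolynomial (K × Fin n × Fin n) R))
    (h1 : ∀ i j, X (1, i, j) - C ((1 : Matrix (Fin n) (Fin n) R) i j) ∈ J)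
    (h2 : ∀ g h i j, X (g * h, i, j) - ∑ c, X (g, i, c) * X (h, c, j) ∈ J) :
    ∃ ρ : K →* GL (Fin n) (MvPolynomial (K × Fin n × Fin n) R ⧸ J), ∀ k i j,
      (ρ k : Matrix (Fin n) (Fin n) (MvPolynomial (K × Fin n × Fin n) R ⧸ J)) i j =
        Ideal.Quotient.mk J (X (k, i, j)) := by
  let r : K →* Matrix (Fin n) (Fin n) (MvPolynomial (K × Fin n × Fin n) R ⧸ J) :=
    { toFun := fun k => Matrix.of fun i j => Ideal.Quotient.mk J (X (k, i, j))
      map_one' := by
        ext i j
        rw [Matrix.of_apply]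
        rw [(Ideal.Quotient.eq).mpr (h1 i j)]
        rw [Matrix.one_apply, Matrix.one_apply]
        split_ifs <;> simp
      map_mul' := by
        intro x y
        ext i j
        rw [Matrix.of_apply, Matrix.mul_apply]
        rw [(Ideal.Quotient.eq).mpr (h2 x y i j)]
        rw [map_sum]
        refine Finset.sum_congr rfl fun c _ => ?_
        rw [map_mul]
        rfl }
  exact ⟨r.toHomUnits, fun k i j => rfl⟩

variable {G : Type*} [Group G] [Group.FG G] {K : Subgroup G} [K.Characteristic] [K.FiniteIndex]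

theorem idealStab_congruence {n : ℕ} {R : Type*} [CommRing R]
    (J : Ideal (MvPolynomial (K × Fin n × Fin n) R)) (hJ : relations K n R ⊆ J)
    (hS : (idealStab J).FiniteIndex) :
    ∃ Γ : Subgroup G, Γ.Characteristic ∧ Γ.FiniteIndex ∧
      ∀ φ : MulAut G, (∀ x, φ x * x⁻¹ ∈ Γ) → φ ∈ idealStab J := by
  classical
  have hfin : Finite (MulAut G ⧸ idealStab J) := Subgroup.finite_quotient_of_finiteIndex
  have hKfg : Group.FG K := inferInstance
  obtain ⟨ρ, hρ⟩ := exists_taut J (fun i j => hJ (Or.inl ⟨i, j, rfl⟩))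
    (fun g h i j => hJ (Or.inr ⟨g, h, i, j, rfl⟩))
  have heval : ∀ (τ : K → K) (p : MvPolynomial (K × Fin n × Fin n) R),
      eval (fun v : K × Fin n × Fin n =>
        (ρ (τ v.1) : Matrix (Fin n) (Fin n) (MvPolynomial (K × Fin n × Fin n) R ⧸ J)) v.2.1 v.2.2)
        (MvPolynomial.map (algebraMap R _) p) =
        Ideal.Quotient.mk J (rename (fun v => (τ v.1, v.2)) p) := by
    intro τ p
    rw [MvPolynomial.eval_map, ← MvPolynomial.aeval_def]
    have : (aeval (R := R) (fun v : K × Fin n × Fin n =>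
        (ρ (τ v.1) : Matrix (Fin n) (Fin n) (MvPolynomial (K × Fin n × Fin n) R ⧸ J)) v.2.1 v.2.2))
        = (Ideal.Quotient.mkₐ R J).comp (rename (fun v => (τ v.1, v.2))) := by
      apply MvPolynomial.algHom_ext
      intro v
      rw [aeval_X, AlgHom.comp_apply, rename_X, hρ]
      rfl
    rw [this]
    rfl
  -- subgroup attached to an automorphism
  have step : ∀ ψ : MulAut G, ∃ N : Subgroup K, N.FiniteIndex ∧
      ∀ φ : MulAut G, (∀ k : K, k⁻¹ * res K φ k ∈ N) →
        (∀ p, subst φ p ∈ J ↔ subst ψ p ∈ J) → ∀ p, subst φ p ∈ J → p ∈ J := by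
    intro ψ
    by_cases hψ : ∃ p, subst ψ p ∈ J ∧ p ∉ J
    · obtain ⟨p, hp, hp'⟩ := hψ
      have h0 : eval (fun v : K × Fin n × Fin n =>
        (ρ v.1 : Matrix (Fin n) (Fin n) (MvPolynomial (K × Fin n × Fin n) R ⧸ J)) v.2.1 v.2.2)
        (MvPolynomial.map (algebraMap R _) p) ≠ 0 := by
        rw [heval (fun k => k) p]
        intro h0
        rw [Ideal.Quotient.eq_zero_iff_mem] at h0
        apply hp'
        have : (fun v : K × Fin n × Fin n => (v.1, v.2)) = id := rfl
        rw [this, MvPolynomial.rename_id_apply] at h0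
        exact h0
      obtain ⟨N, hN, hN'⟩ := key ρ _ h0
      refine ⟨N, hN, ?_⟩
      intro φ hφ hφψ
      exfalso
      apply hN' (fun k => res K φ k) hφ
      rw [heval, Ideal.Quotient.eq_zero_iff_mem]
      exact (hφψ p).mpr hp
    · push Not at hψ
      refine ⟨⊤, inferInstance, ?_⟩
      intro φ _ hφψ p hp
      exact hψ p ((hφψ p).mp hp)
  choose N hN hN' using step
  let N₀ : Subgroup G := ⨅ c : MulAut G ⧸ idealStab J, (N (c.out)⁻¹).map K.subtype
  have hN₀ : N₀.FiniteIndex := by
    apply Subgroup.finiteIndex_iInf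
    intro c
    have := hN (c.out)⁻¹
    constructor
    rw [Subgroup.index_map_subtype]
    exact mul_ne_zero (hN (c.out)⁻¹).index_ne_zero (Subgroup.FiniteIndex.index_ne_zero)
  obtain ⟨Γ, hΓc, hΓf, hΓN⟩ := exists_characteristic_le N₀
  refine ⟨Γ, hΓc, hΓf, ?_⟩
  have hΓn : Γ.Normal := inferInstance
  -- first inclusion
  have incl : ∀ φ : MulAut G, (∀ x, φ x * x⁻¹ ∈ Γ) → ∀ p, subst φ p ∈ J → p ∈ J := by
    intro φ hφ
    let c : MulAut G ⧸ idealStab J := (φ⁻¹ : MulAut G)
    have hc : (c.out)⁻¹ * φ⁻¹ ∈ idealStab J := by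
      have : ((c.out : MulAut G) : MulAut G ⧸ idealStab J) = (φ⁻¹ : MulAut G) :=
        Quotient.out_eq' c
      exact QuotientGroup.eq.mp this
    apply hN' (c.out)⁻¹ φ
    · intro k
      have h1 : φ (k : G) * (k : G)⁻¹ ∈ Γ := hφ _
      have h3 : (k : G)⁻¹ * φ (k : G) ∈ Γ := by
        have h5 := hΓn.conj_mem _ h1 ((k : G)⁻¹)
        simpa [mul_assoc] using h5
      have h6 := (Subgroup.mem_iInf.mp (hΓN h3)) c
      obtain ⟨z, hz, hz'⟩ := Subgroup.mem_map.mp h6
      have : z = k⁻¹ * res K φ k := by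
        apply Subtype.ext
        rw [← Subgroup.coe_subtype, hz']
        rfl
      rw [← this]
      exact hz
    · intro p
      have h1 := hc (subst φ p)
      rw [← subst_mul, inv_mul_cancel_right] at h1
      exact h1.symm
  intro φ hφ
  obtain ⟨m, hm0, hm⟩ :=
    Subgroup.exists_pow_mem_of_index_ne_zero (H := idealStab J) hS.index_ne_zero φ
  have hm0' : 0 < m := hm0
  -- monotonicity
  have mono : ∀ k : ℕ, ∀ p, subst (φ ^ (k + 1)) p ∈ J → subst φ p ∈ J := by
    intro k
    induction k with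
    | zero => intro p h; simpa using h
    | succ k ih =>
      intro p h
      rw [pow_succ', subst_mul] at h
      exact ih p (incl φ hφ _ h)
  intro p
  constructor
  · exact incl φ hφ p
  · intro h
    have h1 := (hm.2 p).mpr h
    have h2 : φ ^ m = φ ^ ((m - 1) + 1) := by rw [Nat.sub_add_cancel hm0']
    rw [h2] at h1
    exact mono (m - 1) p h1

end Main

end Pool.MP_59b15d_al.H24
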