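import Mathlib
import Pool.Agent.H.MP_59b15d_al.h24.IdealV

set_option autoImplicit false

namespace Pool.MP_59b15d_al.H24

open MvPolynomial

section Defs

variable {G : Type*} [Group G] {K : Subgroup G} [K.Characteristic]

/-- The value of a polynomial in the matrix entries `x_{g,i,j}` at a representation `ρ`. -/
noncomputable def evalAt {L : Type*} [Group L] {n : ℕ} {F : Type*} [CommRing F]
    (ρ : L →* GL (Fin n) F) : MvPolynomial (L × Fin n × Fin n) F →+* F :=
  MvPolynomial.eval fun v => (ρ v.1 : Matrix (Fin n) (Fin n) F) v.2.1 v.2.2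

/-- A set of representations `L → GL_n(F)` is algebraic (Zariski closed) if it is the set of common
zeros of a set of polynomials in the matrix entries of the values at the elements of `L`. -/
def IsAlgebraic {L : Type*} [Group L] {n : ℕ} {F : Type*} [CommRing F]
    (Z : Set (L →* GL (Fin n) F)) : Prop :=
  ∃ I : Set (MvPolynomial (L × Fin n × Fin n) F), ∀ ρ : L →* GL (Fin n) F, ρ ∈ Z ↔
    ∀ p ∈ I, evalAt ρ p = 0

/-- The stabilizer of a set `Z` of representations of the characteristic subgroup `K` of `G` under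
the action of the automorphisms of `G` by precomposition. -/
def stab {n : ℕ} {F : Type*} [CommRing F] (Z : Set (K →* GL (Fin n) F)) : Subgroup (MulAut G) where
  carrier := {φ | ∀ ρ : K →* GL (Fin n) F, ρ.comp (res K φ) ∈ Z ↔ ρ ∈ Z}
  one_mem' := by
    intro ρ
    rw [res_one, MonoidHom.comp_id]
  mul_mem' := by
    intro φ ψ hφ hψ ρ
    rw [res_mul, ← MonoidHom.comp_assoc]
    exact (hψ _).trans (hφ ρ)
  inv_mem' := by
    intro φ hφ ρ
    have h := hφ (ρ.comp (res K φ⁻¹))
    rw [MonoidHom.comp_assoc, ← res_mul, inv_mul_cancel, res_one, MonoidHom.comp_id] at h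
    exact h.symm

theorem mem_stab {n : ℕ} {F : Type*} [CommRing F] {Z : Set (K →* GL (Fin n) F)} {φ : MulAut G} :
    φ ∈ stab Z ↔ ∀ ρ : K →* GL (Fin n) F, ρ.comp (res K φ) ∈ Z ↔ ρ ∈ Z := Iff.rfl

theorem evalAt_comp {n : ℕ} {F : Type*} [CommRing F] (ρ : K →* GL (Fin n) F) (φ : MulAut G)
    (p : MvPolynomial (K × Fin n × Fin n) F) :
    evalAt (ρ.comp (res K φ)) p = evalAt ρ (subst φ p) := by
  unfold evalAt subst
  rw [MvPolynomial.eval_rename]
  rfl

/-- the vanishing ideal -/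
noncomputable def vanish {L : Type*} [Group L] {n : ℕ} {F : Type*} [CommRing F]
    (Z : Set (L →* GL (Fin n) F)) : Ideal (MvPolynomial (L × Fin n × Fin n) F) :=
  ⨅ ρ ∈ Z, RingHom.ker (evalAt ρ)

theorem mem_vanish {L : Type*} [Group L] {n : ℕ} {F : Type*} [CommRing F]
    {Z : Set (L →* GL (Fin n) F)} {p : MvPolynomial (L × Fin n × Fin n) F} :
    p ∈ vanish Z ↔ ∀ ρ ∈ Z, evalAt ρ p = 0 := by
  unfold vanish
  simp only [Submodule.mem_iInf, RingHom.mem_ker]

omit [K.Characteristic] in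
theorem relations_subset_vanish {n : ℕ} {F : Type*} [CommRing F] (Z : Set (K →* GL (Fin n) F)) :
    relations K n F ⊆ vanish Z := by
  intro p hp
  change p ∈ vanish Z
  rw [mem_vanish]
  intro ρ _
  unfold evalAt
  rcases hp with ⟨i, j, rfl⟩ | ⟨g, h, i, j, rfl⟩
  · rw [map_sub, eval_X, eval_C, map_one, Units.val_one, sub_self]
  · rw [map_sub, eval_X, map_sum, map_mul, Units.val_mul, Matrix.mul_apply, sub_eq_zero]
    refine Finset.sum_congr rfl fun c _ => ?_
    rw [map_mul, eval_X, eval_X]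

theorem stab_eq {n : ℕ} {F : Type*} [CommRing F] {Z : Set (K →* GL (Fin n) F)}
    (hZ : IsAlgebraic Z) : stab Z = idealStab (vanish Z) := by
  obtain ⟨I, hI⟩ := hZ
  have hmem : ∀ ρ : K →* GL (Fin n) F, ρ ∈ Z ↔ ∀ p ∈ vanish Z, evalAt ρ p = 0 := by
    intro ρ
    constructor
    · intro hρ p hp
      exact mem_vanish.mp hp ρ hρ
    · intro h
      rw [hI]
      intro p hp
      apply h
      rw [mem_vanish]
      intro σ hσ
      exact (hI σ).mp hσ p hp
  ext φ
  rw [mem_idealStab, mem_stab]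
  constructor
  · intro h p
    rw [mem_vanish, mem_vanish]
    constructor
    · intro hp ρ hρ
      have h1 : (ρ.comp (res K φ⁻¹)) ∈ Z := by
        rw [← h, MonoidHom.comp_assoc, ← res_mul, inv_mul_cancel, res_one, MonoidHom.comp_id]
        exact hρ
      have h2 := hp _ h1
      rw [← evalAt_comp, MonoidHom.comp_assoc, ← res_mul, inv_mul_cancel, res_one,
        MonoidHom.comp_id] at h2
      exact h2
    · intro hp ρ hρ
      rw [← evalAt_comp]
      exact hp _ ((h ρ).mpr hρ)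
  · intro h ρ
    rw [hmem, hmem]
    constructor
    · intro h1 p hp
      have h2 : subst φ⁻¹ p ∈ vanish Z := by
        have : φ⁻¹ ∈ idealStab (vanish Z) := (idealStab (vanish Z)).inv_mem h
        exact (this p).mpr hp
      have h3 := h1 _ h2
      rw [← evalAt_comp, MonoidHom.comp_assoc, ← res_mul, mul_inv_cancel, res_one,
        MonoidHom.comp_id] at h3
      exact h3
    · intro h1 p hp
      rw [evalAt_comp]
      exact h1 _ ((h p).mpr hp)

end Defs

section Main

/-- A subgroup `H` of `Aut(G)` is congruence (in the strong sense for `Aut(G)`): it contains all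
automorphisms that are trivial modulo some characteristic subgroup of finite index. -/
def IsCong {G : Type*} [Group G] (H : Subgroup (MulAut G)) : Prop :=
  ∃ Γ : Subgroup G, Γ.Characteristic ∧ Γ.FiniteIndex ∧ ∀ φ : MulAut G, (∀ x, φ x * x⁻¹ ∈ Γ) → φ ∈ H

theorem IsCong.mono {G : Type*} [Group G] {H H' : Subgroup (MulAut G)} (h : IsCong H)
    (hH : H ≤ H') : IsCong H' := by
  obtain ⟨Γ, h1, h2, h3⟩ := h
  exact ⟨Γ, h1, h2, fun φ hφ => hH (h3 φ hφ)⟩

theorem IsCong.inf {G : Type*} [Group G] {H H' : Subgroup (MulAut G)} (h : IsCong H)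
    (h' : IsCong H') : IsCong (H ⊓ H') := by
  obtain ⟨Γ, h1, h2, h3⟩ := h
  obtain ⟨Γ', h1', h2', h3'⟩ := h'
  refine ⟨Γ ⊓ Γ', ?_, inferInstance, fun φ hφ => ⟨h3 φ fun x => (hφ x).1, h3' φ fun x => (hφ x).2⟩⟩
  infer_instance

theorem IsCong.top {G : Type*} [Group G] : IsCong (⊤ : Subgroup (MulAut G)) :=
  ⟨⊤, inferInstance, inferInstance, fun _ _ => trivial⟩

theorem IsCong.iInf {G : Type*} [Group G] {ι : Type*} [Finite ι] {H : ι → Subgroup (MulAut G)}
    (h : ∀ i, IsCong (H i)) : IsCong (⨅ i, H i) := by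
  choose Γ h1 h2 h3 using h
  refine ⟨⨅ i, Γ i, ?_, Subgroup.finiteIndex_iInf h2, ?_⟩
  · rw [Subgroup.characteristic_iff_le_comap]
    intro φ x hx
    rw [Subgroup.mem_comap, Subgroup.mem_iInf]
    intro i
    rw [Subgroup.mem_iInf] at hx
    exact Subgroup.characteristic_iff_le_comap.mp (h1 i) φ (hx i)
  · intro φ hφ
    rw [Subgroup.mem_iInf]
    intro i
    exact h3 i φ fun x => (Subgroup.mem_iInf.mp (hφ x)) i

variable {G : Type*} [Group G] [Group.FG G] {K : Subgroup G} [K.Characteristic] [K.FiniteIndex]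

theorem isCong_stab {n : ℕ} {F : Type*} [CommRing F] (Z : Set (K →* GL (Fin n) F))
    (hZ : IsAlgebraic Z) (hS : (stab Z).FiniteIndex) : IsCong (stab Z) := by
  rw [stab_eq hZ] at hS ⊢
  exact idealStab_congruence _ (relations_subset_vanish Z) hS

omit [Group.FG G] in
theorem IsCong.conj {H : Subgroup (MulAut G)} (h : IsCong H) :
    ∃ Γ : Subgroup G, Γ.Characteristic ∧ Γ.FiniteIndex ∧
      ∀ (φ : MulAut G) (h : G), (∀ x, φ x * (h * x * h⁻¹)⁻¹ ∈ Γ) →
        (MulAut.conj h)⁻¹ * φ ∈ H := by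
  obtain ⟨Γ, hΓc, hΓf, hΓ⟩ := h
  refine ⟨Γ, hΓc, hΓf, ?_⟩
  intro φ h hφ
  apply hΓ
  intro x
  have hΓn : Γ.Normal := inferInstance
  have h1 := hΓn.conj_mem _ (hφ x) h⁻¹
  have h2 : ((MulAut.conj h)⁻¹ * φ) x = h⁻¹ * φ x * h := by
    rw [MulAut.mul_apply, MulAut.conj_inv_apply]
  rw [h2]
  have h3 : h⁻¹ * φ x * h * x⁻¹ = h⁻¹ * (φ x * (h * x * h⁻¹)⁻¹) * h⁻¹⁻¹ := by group
  rw [h3]
  exact h1

end Main

end Pool.MP_59b15d_al.H24
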