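import Mathlib
import Pool.Agent.H.MP_59b15d_al.h24.Main

set_option autoImplicit false

namespace Pool.MP_59b15d_al.H24

open MvPolynomial

section Topology

variable {L : Type*} [Group L] {n : ℕ} {F : Type*} [Field F]

theorem isAlgebraic_iff {Z : Set (L →* GL (Fin n) F)} :
    IsAlgebraic Z ↔ ∀ ρ : L →* GL (Fin n) F, (∀ p ∈ vanish Z, evalAt ρ p = 0) → ρ ∈ Z := by
  constructor
  · rintro ⟨I, hI⟩ ρ h
    rw [hI]
    intro p hp
    apply h
    rw [mem_vanish]
    intro σ hσ
    exact (hI σ).mp hσ p hp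
  · intro h
    exact ⟨vanish Z, fun ρ => ⟨fun hρ p hp => mem_vanish.mp hp ρ hρ, h ρ⟩⟩

theorem isAlgebraic_empty : IsAlgebraic (∅ : Set (L →* GL (Fin n) F)) := by
  refine ⟨{1}, fun ρ => ?_⟩
  simp

theorem isAlgebraic_sInter {A : Set (Set (L →* GL (Fin n) F))} (hA : ∀ Z ∈ A, IsAlgebraic Z) :
    IsAlgebraic (⋂₀ A) := by
  rw [isAlgebraic_iff]
  intro ρ h
  rw [Set.mem_sInter]
  intro Z hZ
  apply isAlgebraic_iff.mp (hA Z hZ)
  intro p hp
  apply h
  rw [mem_vanish] at hp ⊢
  intro σ hσ
  exact hp σ (Set.mem_sInter.mp hσ Z hZ)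

theorem isAlgebraic_union {Z W : Set (L →* GL (Fin n) F)} (hZ : IsAlgebraic Z)
    (hW : IsAlgebraic W) : IsAlgebraic (Z ∪ W) := by
  rw [isAlgebraic_iff] at *
  intro ρ h
  by_contra hcon
  rw [Set.mem_union, not_or] at hcon
  have h1 : ∃ p ∈ vanish Z, evalAt ρ p ≠ 0 := by
    by_contra hh
    push Not at hh
    exact hcon.1 (hZ ρ hh)
  have h2 : ∃ p ∈ vanish W, evalAt ρ p ≠ 0 := by
    by_contra hh
    push Not at hh
    exact hcon.2 (hW ρ hh)
  obtain ⟨p, hp, hp0⟩ := h1
  obtain ⟨q, hq, hq0⟩ := h2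
  have := h (p * q) (by
    rw [mem_vanish] at *
    intro σ hσ
    rw [map_mul]
    rcases hσ with hσ | hσ
    · rw [hp σ hσ, zero_mul]
    · rw [hq σ hσ, mul_zero])
  rw [map_mul] at this
  exact mul_ne_zero hp0 hq0 this

variable (L n F) in
/-- The Zariski topology on the set of representations. -/
@[instance_reducible] def zariski : TopologicalSpace (L →* GL (Fin n) F) :=
  TopologicalSpace.ofClosed {Z | IsAlgebraic Z} isAlgebraic_empty
    (fun _ hA => isAlgebraic_sInter hA) (fun _ hZ _ hW => isAlgebraic_union hZ hW)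

attribute [local instance] zariski

theorem isClosed_iff {Z : Set (L →* GL (Fin n) F)} : IsClosed Z ↔ IsAlgebraic Z := by
  rw [← isOpen_compl_iff]
  change Zᶜᶜ ∈ {Z | IsAlgebraic Z} ↔ _
  rw [compl_compl]
  rfl

theorem noetherian [Group.FG L] : TopologicalSpace.NoetherianSpace (L →* GL (Fin n) F) := by
  classical
  obtain ⟨S, hS⟩ := Group.fg_def.mp (inferInstance : Group.FG L)
  let T : Finset L := S ∪ S.image (fun x => x⁻¹)
  let N := MvPolynomial (T × Fin n × Fin n) F
  let ev : (L →* GL (Fin n) F) → N →+* F := fun ρ =>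
    MvPolynomial.eval fun v => (ρ v.1 : Matrix (Fin n) (Fin n) F) v.2.1 v.2.2
  have hQ : ∀ k : L, (∃ Q : Matrix (Fin n) (Fin n) N, ∀ ρ i j,
      ev ρ (Q i j) = (ρ k : Matrix (Fin n) (Fin n) F) i j) ∧
      (∃ Q : Matrix (Fin n) (Fin n) N, ∀ ρ i j,
      ev ρ (Q i j) = (ρ k⁻¹ : Matrix (Fin n) (Fin n) F) i j) := by
    intro k
    have hk : k ∈ Subgroup.closure (S : Set L) := by rw [hS]; trivial
    induction hk using Subgroup.closure_induction with
    | mem x hx =>
      constructor
      · refine ⟨Matrix.of fun i j => X (⟨x, ?_⟩, i, j), fun ρ i j => ?_⟩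
        · exact Finset.mem_union_left _ hx
        · exact MvPolynomial.eval_X _
      · refine ⟨Matrix.of fun i j => X (⟨x⁻¹, ?_⟩, i, j), fun ρ i j => ?_⟩
        · exact Finset.mem_union_right _ (Finset.mem_image_of_mem _ hx)
        · exact MvPolynomial.eval_X _
    | one =>
      have h1 : ∃ Q : Matrix (Fin n) (Fin n) N, ∀ ρ i j,
        ev ρ (Q i j) = (ρ 1 : Matrix (Fin n) (Fin n) F) i j := by
        refine ⟨1, fun ρ i j => ?_⟩
        rw [map_one, Units.val_one, Matrix.one_apply, Matrix.one_apply]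
        split_ifs <;> simp
      refine ⟨h1, ?_⟩
      rw [inv_one]
      exact h1
    | mul x y _ _ hx hy =>
      obtain ⟨⟨A, hA⟩, ⟨A', hA'⟩⟩ := hx
      obtain ⟨⟨B, hB⟩, ⟨B', hB'⟩⟩ := hy
      constructor
      · refine ⟨A * B, fun ρ i j => ?_⟩
        rw [Matrix.mul_apply, map_sum, map_mul, Units.val_mul, Matrix.mul_apply]
        refine Finset.sum_congr rfl fun c _ => ?_
        rw [map_mul, hA, hB]
      · refine ⟨B' * A', fun ρ i j => ?_⟩
        rw [Matrix.mul_apply, map_sum, mul_inv_rev, map_mul, Units.val_mul, Matrix.mul_apply]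
        refine Finset.sum_congr rfl fun c _ => ?_
        rw [map_mul, hA', hB']
    | inv x _ hx =>
      refine ⟨hx.2, ?_⟩
      rw [inv_inv]
      exact hx.1
  choose Q hQ using fun k => (hQ k).1
  -- push polynomials
  let push : MvPolynomial (L × Fin n × Fin n) F →ₐ[F] N :=
    aeval fun v => Q v.1 v.2.1 v.2.2
  have hpush : ∀ ρ p, ev ρ (push p) = evalAt ρ p := by
    intro ρ p
    have : ((ev ρ).comp push.toRingHom) = evalAt ρ := by
      apply MvPolynomial.ringHom_ext
      · intro r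
        change ev ρ (push (C r)) = evalAt ρ (C r)
        have h1 : push (C r) = C r := push.commutes r
        rw [h1]
        exact (MvPolynomial.eval_C r).trans (MvPolynomial.eval_C r).symm
      · intro v
        change ev ρ (push (X v)) = evalAt ρ (X v)
        simp only [push, aeval_X, evalAt, eval_X]
        exact hQ _ _ _ _
    exact RingHom.congr_fun this p
  let f : TopologicalSpace.Closeds (L →* GL (Fin n) F) → Ideal N := fun Z =>
    ⨅ ρ ∈ (Z : Set (L →* GL (Fin n) F)), RingHom.ker (ev ρ)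
  have hmem : ∀ Z q, q ∈ f Z ↔ ∀ ρ ∈ (Z : Set (L →* GL (Fin n) F)), ev ρ q = 0 := by
    intro Z q
    simp only [f, Submodule.mem_iInf, RingHom.mem_ker]
  have hf : StrictAnti f := by
    intro Z W hZW
    rw [lt_iff_le_and_ne]
    constructor
    · intro q hq
      rw [hmem] at hq ⊢
      intro ρ hρ
      exact hq ρ (hZW.le hρ)
    · intro heq
      apply hZW.not_ge
      intro ρ hρ
      have hZa : IsAlgebraic (Z : Set (L →* GL (Fin n) F)) := isClosed_iff.mp Z.isClosed
      apply isAlgebraic_iff.mp hZa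
      intro p hp
      rw [← hpush]
      have h1 : push p ∈ f Z := by
        rw [hmem]
        intro σ hσ
        rw [hpush]
        exact mem_vanish.mp hp σ hσ
      rw [← heq, hmem] at h1
      exact h1 ρ hρ
  have hwf : WellFoundedLT (TopologicalSpace.Closeds (L →* GL (Fin n) F)) := by
    have : WellFoundedGT (Ideal N) := inferInstance
    exact hf.wellFoundedLT
  exact ((TopologicalSpace.noetherianSpace_TFAE (L →* GL (Fin n) F)).out 0 1).mpr hwf

end Topology

end Pool.MP_59b15d_al.H24
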