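import Mathlib
import Pool.Agent.H.MP_59b15d_al.h24.Zar

set_option autoImplicit false

namespace Pool.MP_59b15d_al.H24

open MvPolynomial

section GenTop

variable {X : Type*} [TopologicalSpace X]

/-- Resolvable sets: a topological property shared by all constructible sets. -/
def Resolv (Z : Set X) : Prop :=
  ∀ U Y : Set X, IsOpen U → IsClosed Y → (U ∩ Y).Nonempty →
    ∃ U' ⊆ U, IsOpen U' ∧ (U' ∩ Y).Nonempty ∧ (U' ∩ Y ⊆ Z ∨ U' ∩ Y ⊆ Zᶜ)

theorem Resolv.of_isClosed {Z : Set X} (hZ : IsClosed Z) : Resolv Z := by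
  intro U Y hU hY hne
  by_cases h : U ∩ Y ⊆ Z
  · exact ⟨U, subset_rfl, hU, hne, Or.inl h⟩
  · rw [Set.not_subset] at h
    obtain ⟨x, hx, hxZ⟩ := h
    refine ⟨U ∩ Zᶜ, Set.inter_subset_left, hU.inter hZ.isOpen_compl, ⟨x, ⟨hx.1, hxZ⟩, hx.2⟩, ?_⟩
    exact Or.inr fun y hy => hy.1.2

theorem Resolv.compl {Z : Set X} (hZ : Resolv Z) : Resolv Zᶜ := by
  intro U Y hU hY hne
  obtain ⟨U', h1, h2, h3, h4⟩ := hZ U Y hU hY hne
  refine ⟨U', h1, h2, h3, ?_⟩
  rw [compl_compl]
  exact h4.symm

theorem Resolv.inter {Z W : Set X} (hZ : Resolv Z) (hW : Resolv W) : Resolv (Z ∩ W) := by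
  intro U Y hU hY hne
  obtain ⟨U', h1, h2, h3, h4⟩ := hZ U Y hU hY hne
  rcases h4 with h4 | h4
  · obtain ⟨V, k1, k2, k3, k4⟩ := hW U' Y h2 hY h3
    refine ⟨V, k1.trans h1, k2, k3, ?_⟩
    rcases k4 with k4 | k4
    · exact Or.inl fun x hx => ⟨h4 ⟨k1 hx.1, hx.2⟩, k4 hx⟩
    · exact Or.inr fun x hx hx' => k4 hx hx'.2
  · exact ⟨U', h1, h2, h3, Or.inr fun x hx hx' => h4 hx hx'.1⟩

end GenTop

/-- Constructible sets of representations: the Boolean algebra generated by the algebraic sets. -/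
inductive IsConstructible {L : Type*} [Group L] {n : ℕ} {F : Type*} [CommRing F] :
    Set (L →* GL (Fin n) F) → Prop
  | alg {Z : Set (L →* GL (Fin n) F)} : IsAlgebraic Z → IsConstructible Z
  | compl {Z : Set (L →* GL (Fin n) F)} : IsConstructible Z → IsConstructible Zᶜ
  | inter {Z W : Set (L →* GL (Fin n) F)} : IsConstructible Z → IsConstructible W →
      IsConstructible (Z ∩ W)

attribute [local instance] zariski

theorem IsConstructible.resolv {L : Type*} [Group L] {n : ℕ} {F : Type*} [Field F]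
    {Z : Set (L →* GL (Fin n) F)} (h : IsConstructible Z) : Resolv Z := by
  induction h with
  | alg h => exact Resolv.of_isClosed (isClosed_iff.mpr h)
  | compl _ ih => exact ih.compl
  | inter _ _ ih1 ih2 => exact ih1.inter ih2

section Act

variable {G : Type*} [Group G] {K : Subgroup G} [K.Characteristic] {n : ℕ} {F : Type*} [Field F]

/-- precomposition -/
def act (φ : MulAut G) (ρ : K →* GL (Fin n) F) : K →* GL (Fin n) F := ρ.comp (res K φ)

theorem act_act (φ ψ : MulAut G) (ρ : K →* GL (Fin n) F) : act ψ (act φ ρ) = act (φ * ψ) ρ := by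
  unfold act
  rw [MonoidHom.comp_assoc, ← res_mul]

theorem act_one (ρ : K →* GL (Fin n) F) : act (1 : MulAut G) ρ = ρ := by
  unfold act
  rw [res_one, MonoidHom.comp_id]

theorem isAlgebraic_preimage (φ : MulAut G) {Z : Set (K →* GL (Fin n) F)} (hZ : IsAlgebraic Z) :
    IsAlgebraic (act φ ⁻¹' Z) := by
  obtain ⟨I, hI⟩ := hZ
  refine ⟨subst φ '' I, fun ρ => ?_⟩
  rw [Set.mem_preimage, hI]
  constructor
  · rintro h _ ⟨p, hp, rfl⟩
    rw [← evalAt_comp]
    exact h p hp
  · intro h p hp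
    unfold act
    rw [evalAt_comp]
    exact h _ ⟨p, hp, rfl⟩

theorem continuous_act (φ : MulAut G) :
    Continuous (act φ : (K →* GL (Fin n) F) → (K →* GL (Fin n) F)) := by
  rw [continuous_iff_isClosed]
  intro Z hZ
  exact isClosed_iff.mpr (isAlgebraic_preimage φ (isClosed_iff.mp hZ))

/-- The action by homeomorphisms -/
def actHomeo (φ : MulAut G) : (K →* GL (Fin n) F) ≃ₜ (K →* GL (Fin n) F) where
  toFun := act φ
  invFun := act φ⁻¹
  left_inv ρ := by rw [act_act, mul_inv_cancel, act_one]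
  right_inv ρ := by rw [act_act, inv_mul_cancel, act_one]
  continuous_toFun := continuous_act φ
  continuous_invFun := continuous_act φ⁻¹

theorem mem_stab_iff {Z : Set (K →* GL (Fin n) F)} {φ : MulAut G} :
    φ ∈ stab Z ↔ actHomeo φ ⁻¹' Z = Z := by
  rw [mem_stab, Set.ext_iff]
  rfl

theorem stab_le_closure (Z : Set (K →* GL (Fin n) F)) : stab Z ≤ stab (closure Z) := by
  intro φ hφ
  rw [mem_stab_iff] at hφ ⊢
  rw [(actHomeo φ).preimage_closure, hφ]

theorem stab_inter_le (Z W : Set (K →* GL (Fin n) F)) : stab Z ⊓ stab W ≤ stab (Z ∩ W) := by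
  rintro φ ⟨h1, h2⟩
  rw [mem_stab_iff, Set.preimage_inter, mem_stab_iff.mp h1, mem_stab_iff.mp h2]

theorem stab_compl_le (Z : Set (K →* GL (Fin n) F)) : stab Z ≤ stab Zᶜ := by
  intro φ h1
  rw [mem_stab_iff, Set.preimage_compl, mem_stab_iff.mp h1]

theorem stab_union_le (Z W : Set (K →* GL (Fin n) F)) : stab Z ⊓ stab W ≤ stab (Z ∪ W) := by
  rintro φ ⟨h1, h2⟩
  rw [mem_stab_iff, Set.preimage_union, mem_stab_iff.mp h1, mem_stab_iff.mp h2]

variable [Group.FG G] [K.FiniteIndex]

theorem isCong_stab_of_isClosed {Z : Set (K →* GL (Fin n) F)} (hZ : IsClosed Z)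
    (hS : (stab Z).FiniteIndex) : IsCong (stab Z) :=
  isCong_stab Z (isClosed_iff.mp hZ) hS

theorem isCong_stab_resolv {Z : Set (K →* GL (Fin n) F)} (hZ : Resolv Z)
    (hS : (stab Z).FiniteIndex) : IsCong (stab Z) := by
  have hno : TopologicalSpace.NoetherianSpace (K →* GL (Fin n) F) := noetherian
  have hwf : WellFoundedLT (TopologicalSpace.Closeds (K →* GL (Fin n) F)) :=
    ((TopologicalSpace.noetherianSpace_TFAE (K →* GL (Fin n) F)).out 0 1).mp hno
  have main : ∀ Y : TopologicalSpace.Closeds (K →* GL (Fin n) F), ∀ Z : Set (K →* GL (Fin n) F),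
      Z ⊆ Y → Resolv Z → (stab Z).FiniteIndex → IsCong (stab Z) := by
    intro Y
    induction Y using WellFoundedLT.induction with
    | ind Y ih =>
      intro Z hZY hZ hS
      by_cases hne : Z.Nonempty
      · let C := closure Z
        let B := closure (C \ Z)
        have hCY : C ⊆ Y := closure_minimal hZY Y.isClosed
        have hBC : B ⊆ C := closure_minimal Set.sdiff_subset isClosed_closure
        have hZC : Z ⊆ C := subset_closure
        have h1 : stab Z ≤ stab C := stab_le_closure Z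
        have h2 : stab Z ≤ stab B := by
          intro φ hφ
          apply stab_le_closure
          rw [Set.sdiff_eq]
          exact stab_inter_le _ _ ⟨h1 hφ, stab_compl_le Z hφ⟩
        have h3 : stab Z ≤ stab (Z ∩ B) := fun φ hφ => stab_inter_le _ _ ⟨hφ, h2 hφ⟩
        have f1 : IsCong (stab C) := isCong_stab_of_isClosed isClosed_closure
          (Subgroup.finiteIndex_of_le h1)
        have f2 : IsCong (stab B) := isCong_stab_of_isClosed isClosed_closure
          (Subgroup.finiteIndex_of_le h2)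
        have hne' : ∃ x ∈ C, x ∉ B := by
          obtain ⟨U, _, hU, ⟨x, hxU, hxC⟩, hU2⟩ := hZ Set.univ C isOpen_univ isClosed_closure
            (by rw [Set.univ_inter]; exact hne.mono hZC)
          rcases hU2 with hU2 | hU2
          · refine ⟨x, hxC, ?_⟩
            intro hxB
            obtain ⟨y, hyU, hyC, hyZ⟩ := mem_closure_iff.mp hxB U hU hxU
            exact hyZ (hU2 ⟨hyU, hyC⟩)
          · exfalso
            obtain ⟨y, hyU, hyZ⟩ := mem_closure_iff.mp hxC U hU hxU
            exact hU2 ⟨hyU, hZC hyZ⟩ hyZ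
        have hlt : (⟨B, isClosed_closure⟩ : TopologicalSpace.Closeds _) < Y := by
          refine lt_of_le_of_ne (fun x hx => hCY (hBC hx)) ?_
          intro heq
          obtain ⟨x, hxC, hxB⟩ := hne'
          apply hxB
          have : x ∈ (Y : Set _) := hCY hxC
          rw [← heq] at this
          exact this
        have f3 : IsCong (stab (Z ∩ B)) := ih _ hlt (Z ∩ B) Set.inter_subset_right
          (hZ.inter (Resolv.of_isClosed isClosed_closure)) (Subgroup.finiteIndex_of_le h3)
        refine ((f1.inf f2).inf f3).mono ?_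
        have hdec : Z = (C ∩ Bᶜ) ∪ (Z ∩ B) := by
          ext x
          constructor
          · intro hx
            by_cases hxB : x ∈ B
            · exact Or.inr ⟨hx, hxB⟩
            · exact Or.inl ⟨hZC hx, hxB⟩
          · rintro (⟨hxC, hxB⟩ | ⟨hx, _⟩)
            · by_contra hxZ
              exact hxB (subset_closure ⟨hxC, hxZ⟩)
            · exact hx
        rintro φ ⟨⟨g1, g2⟩, g3⟩
        rw [hdec]
        exact stab_union_le _ _ ⟨stab_inter_le _ _ ⟨g1, stab_compl_le _ g2⟩, g3⟩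
      · have hemp : Z = ∅ := Set.not_nonempty_iff_eq_empty.mp hne
        refine IsCong.top.mono ?_
        intro φ _
        rw [mem_stab_iff, hemp]
        rfl
  exact main ⊤ Z (fun _ _ => trivial) hZ hS

/-- irreducible algebraic sets -/
def IsIrred {L : Type*} [Group L] {n : ℕ} {F : Type*} [CommRing F]
    (Z : Set (L →* GL (Fin n) F)) : Prop :=
  IsAlgebraic Z ∧ Z.Nonempty ∧ ∀ A B : Set (L →* GL (Fin n) F), IsAlgebraic A → IsAlgebraic B →
    Z ⊆ A ∪ B → Z ⊆ A ∨ Z ⊆ B

/-- irreducible components -/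
def IsComponent {L : Type*} [Group L] {n : ℕ} {F : Type*} [CommRing F]
    (X Z : Set (L →* GL (Fin n) F)) : Prop :=
  Maximal (fun W => IsIrred W ∧ W ⊆ X) Z

theorem isIrred_iff {L : Type*} [Group L] {n : ℕ} {F : Type*} [Field F]
    {Z : Set (L →* GL (Fin n) F)} : IsIrred Z ↔ IsClosed Z ∧ IsIrreducible Z := by
  unfold IsIrred IsIrreducible
  rw [isPreirreducible_iff_isClosed_union_isClosed, isClosed_iff]
  simp only [isClosed_iff]

theorem finite_components {L : Type*} [Group L] [Group.FG L] {n : ℕ} {F : Type*} [Field F]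
    {X : Set (L →* GL (Fin n) F)} (hX : IsAlgebraic X) : {Z | IsComponent X Z}.Finite := by
  have hno : TopologicalSpace.NoetherianSpace (L →* GL (Fin n) F) := noetherian
  obtain ⟨S, hSf, hSc, hSi, hSU⟩ :=
    TopologicalSpace.NoetherianSpace.exists_finite_set_isClosed_irreducible (isClosed_iff.mpr hX)
  refine hSf.subset fun Z hZ => ?_
  have hZi := isIrred_iff.mp hZ.1.1
  have hSf' := hSf
  lift S to Finset (Set (L →* GL (Fin n) F)) using hSf
  rcases isIrreducible_iff_sUnion_isClosed.1 hZi.2 S hSc (hSU ▸ hZ.1.2) with ⟨t, htS, ht⟩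
  have htX : t ⊆ X := by
    rw [hSU]
    exact Set.subset_sUnion_of_mem htS
  have hle : t ⊆ Z := hZ.2 ⟨isIrred_iff.mpr ⟨hSc t htS, hSi t htS⟩, htX⟩ ht
  rw [ht.antisymm hle]
  exact htS

end Act

end Pool.MP_59b15d_al.H24
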