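import Mathlib
import Pool.Agent.H.MP_59b15d_al.h24.Constr

set_option autoImplicit false

namespace Pool.MP_59b15d_al.H24

open MvPolynomial

section Comp

variable {G : Type*} [Group G] {K : Subgroup G} [K.Characteristic] {n : ℕ} {F : Type*} [Field F]

theorem preimage_preimage_act (φ ψ : MulAut G) (Z : Set (K →* GL (Fin n) F)) :
    act φ ⁻¹' (act ψ ⁻¹' Z) = act (φ * ψ) ⁻¹' Z := by
  ext ρ
  rw [Set.mem_preimage, Set.mem_preimage, Set.mem_preimage, act_act]

theorem preimage_act_one (Z : Set (K →* GL (Fin n) F)) :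
    act (1 : MulAut G) ⁻¹' Z = Z := by
  ext ρ
  rw [Set.mem_preimage, act_one]

theorem mem_stab_iff' {Z : Set (K →* GL (Fin n) F)} {φ : MulAut G} :
    φ ∈ stab Z ↔ act φ ⁻¹' Z = Z := mem_stab_iff

theorem isIrred_preimage (φ : MulAut G) {Z : Set (K →* GL (Fin n) F)} (hZ : IsIrred Z) :
    IsIrred (act φ ⁻¹' Z) := by
  obtain ⟨h1, ⟨ρ, hρ⟩, h3⟩ := hZ
  refine ⟨isAlgebraic_preimage φ h1, ⟨act φ⁻¹ ρ, ?_⟩, ?_⟩
  · rw [Set.mem_preimage, act_act, inv_mul_cancel, act_one]
    exact hρ
  · intro A B hA hB hAB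
    have key : ∀ C : Set (K →* GL (Fin n) F), Z ⊆ act φ⁻¹ ⁻¹' C ↔ act φ ⁻¹' Z ⊆ C := by
      intro C
      constructor
      · intro h σ hσ
        have := h hσ
        rw [Set.mem_preimage, act_act, mul_inv_cancel, act_one] at this
        exact this
      · intro h σ hσ
        apply h
        rw [Set.mem_preimage, act_act, inv_mul_cancel, act_one]
        exact hσ
    have h4 := h3 _ _ (isAlgebraic_preimage φ⁻¹ hA) (isAlgebraic_preimage φ⁻¹ hB) (by
      rw [← Set.preimage_union]
      exact (key _).mpr hAB)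
    rwa [key, key] at h4

theorem isComponent_preimage {X : Set (K →* GL (Fin n) F)} {φ : MulAut G} (hφ : φ ∈ stab X)
    {Z : Set (K →* GL (Fin n) F)} (hZ : IsComponent X Z) : IsComponent X (act φ ⁻¹' Z) := by
  obtain ⟨⟨h1, h2⟩, h3⟩ := hZ
  refine ⟨⟨isIrred_preimage φ h1, ?_⟩, ?_⟩
  · rw [← mem_stab_iff'.mp hφ]
    exact Set.preimage_mono h2
  · rintro W ⟨hW1, hW2⟩ hle
    have hφ' : φ⁻¹ ∈ stab X := (stab X).inv_mem hφ
    have h4 : act φ⁻¹ ⁻¹' W ≤ Z := by
      refine h3 ⟨isIrred_preimage φ⁻¹ hW1, ?_⟩ ?_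
      · rw [← mem_stab_iff'.mp hφ']
        exact Set.preimage_mono hW2
      · have := Set.preimage_mono (f := act φ⁻¹) hle
        rw [preimage_preimage_act, inv_mul_cancel, preimage_act_one] at this
        exact this
    have := Set.preimage_mono (f := act φ) h4
    rw [preimage_preimage_act, mul_inv_cancel, preimage_act_one] at this
    exact this

/-- The permutation action of the stabilizer of `X` on the components of `X`. -/
@[instance_reducible] def compAction (X : Set (K →* GL (Fin n) F)) :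
    MulAction (stab X) {Z : Set (K →* GL (Fin n) F) // IsComponent X Z} where
  smul φ Z := ⟨act (φ : MulAut G) ⁻¹' Z, isComponent_preimage φ.2 Z.2⟩
  one_smul Z := by
    apply Subtype.ext
    exact preimage_act_one (G := G) _
  mul_smul φ ψ Z := by
    apply Subtype.ext
    exact (preimage_preimage_act _ _ _).symm

theorem isCong_components [Group.FG G] [K.FiniteIndex] {X : Set (K →* GL (Fin n) F)}
    (hX : IsAlgebraic X) (hS : (stab X).FiniteIndex) :
    IsCong (⨅ Z : {Z : Set (K →* GL (Fin n) F) // IsComponent X Z}, stab Z.1) := by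
  have hfin : Finite {Z : Set (K →* GL (Fin n) F) // IsComponent X Z} := finite_components hX
  apply IsCong.iInf
  intro Z
  apply isCong_stab Z.1 Z.2.1.1.1
  let := compAction X
  let f : stab X →* Equiv.Perm {Z : Set (K →* GL (Fin n) F) // IsComponent X Z} :=
    MulAction.toPermHom _ _
  have h1 : f.ker.FiniteIndex := Subgroup.finiteIndex_ker f
  have h2 : (f.ker.map (stab X).subtype).FiniteIndex := by
    constructor
    rw [Subgroup.index_map_subtype]
    exact mul_ne_zero h1.index_ne_zero hS.index_ne_zero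
  have h3 : f.ker.map (stab X).subtype ≤ stab Z.1 := by
    rintro _ ⟨φ, hφ, rfl⟩
    rw [mem_stab_iff']
    have h4 : f φ Z = Z := by
      have : f φ = 1 := hφ
      rw [this]
      rfl
    exact congrArg Subtype.val h4
  exact Subgroup.finiteIndex_of_le h3

end Comp

section Converse

/-- A faithful representation over `F` of a finite group. -/
theorem exists_faithful (Q : Type*) [Group Q] [Finite Q] (F : Type*) [CommRing F] [Nontrivial F] :
    ∃ (n : ℕ) (ρ : Q →* GL (Fin n) F), Function.Injective ρ := by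
  classical
  have := Fintype.ofFinite Q
  let r : Q →* Matrix Q Q F :=
    { toFun := fun q => Matrix.of fun a b => if a = q * b then 1 else 0
      map_one' := by
        ext a b
        rw [Matrix.of_apply, Matrix.one_apply, one_mul]
      map_mul' := by
        intro x y
        ext a b
        rw [Matrix.of_apply, Matrix.mul_apply]
        simp only [Matrix.of_apply, mul_ite, mul_one, mul_zero]
        rw [Finset.sum_ite_eq' ]
        simp [mul_assoc] }
  let e : Q ≃ Fin (Fintype.card Q) := Fintype.equivFin Q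
  let s : Q →* Matrix (Fin (Fintype.card Q)) (Fin (Fintype.card Q)) F :=
    ((Matrix.reindexAlgEquiv F F e).toMulEquiv.toMonoidHom).comp r
  refine ⟨Fintype.card Q, s.toHomUnits, ?_⟩
  intro x y hxy
  have h1 : s x = s y := congrArg Units.val hxy
  have h2 : r x = r y := (Matrix.reindexAlgEquiv F F e).injective h1
  have h3 := congrFun (congrFun h2 x) 1
  change (if x = x * 1 then (1 : F) else 0) = (if x = y * 1 then (1 : F) else 0) at h3
  rw [mul_one, mul_one, if_pos rfl] at h3
  by_contra hne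
  rw [if_neg hne] at h3
  exact one_ne_zero h3

theorem isAlgebraic_singleton {L : Type*} [Group L] {n : ℕ} {F : Type*} [CommRing F]
    (σ : L →* GL (Fin n) F) : IsAlgebraic {σ} := by
  refine ⟨{p | ∃ k i j, p = X (k, i, j) - C ((σ k : Matrix (Fin n) (Fin n) F) i j)}, fun ρ => ?_⟩
  rw [Set.mem_singleton_iff]
  constructor
  · rintro rfl p ⟨k, i, j, rfl⟩
    unfold evalAt
    rw [map_sub, eval_X, eval_C, sub_self]
  · intro h
    ext k i j
    have := h _ ⟨k, i, j, rfl⟩
    unfold evalAt at this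
    rw [map_sub, eval_X, eval_C, sub_eq_zero] at this
    exact this

theorem isAlgebraic_finite {L : Type*} [Group L] {n : ℕ} {F : Type*} [Field F]
    {Z : Set (L →* GL (Fin n) F)} (hZ : Z.Finite) : IsAlgebraic Z := by
  induction Z, hZ using Set.Finite.induction_on with
  | empty => exact isAlgebraic_empty
  | insert _ _ ih =>
    rw [Set.insert_eq]
    exact isAlgebraic_union (isAlgebraic_singleton _) ih

/-- The action of the automorphisms of `G` on the quotient by a characteristic subgroup. -/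
def quotAut {G : Type*} [Group G] (Γ : Subgroup G) [hc : Γ.Characteristic] :
    MulAut G →* MulAut (G ⧸ Γ) where
  toFun φ := QuotientGroup.congr Γ Γ φ (Subgroup.characteristic_iff_map_eq.mp hc φ)
  map_one' := by
    ext x
    induction x using QuotientGroup.induction_on
    rfl
  map_mul' φ ψ := by
    ext x
    induction x using QuotientGroup.induction_on
    rfl

theorem quotAut_mk {G : Type*} [Group G] (Γ : Subgroup G) [hc : Γ.Characteristic] (φ : MulAut G)
    (x : G) : quotAut Γ φ (x : G ⧸ Γ) = ((φ x : G) : G ⧸ Γ) := rfl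

/-- Converse: congruence subgroups are stabilizers of single representations. -/
theorem converse {G : Type*} [Group G] (Γ : Subgroup G) [hc : Γ.Characteristic]
    [hf : Γ.FiniteIndex] (F : Type*) [Field F] :
    ∃ (n : ℕ) (ρ : G →* GL (Fin n) F), (Set.range ρ).Finite ∧
      (stab {ρ.comp (⊤ : Subgroup G).subtype}).FiniteIndex ∧
      (∀ φ : MulAut G, ρ.comp φ.toMonoidHom = ρ → ∀ x, φ x * x⁻¹ ∈ Γ) ∧
      (∀ φ ∈ stab {ρ.comp (⊤ : Subgroup G).subtype}, ∀ x, φ x * x⁻¹ ∈ Γ) := by
  have hn : Γ.Normal := inferInstance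
  have hfin : Finite (G ⧸ Γ) := Subgroup.finite_quotient_of_finiteIndex
  obtain ⟨n, σ, hσ⟩ := exists_faithful (G ⧸ Γ) F
  let ρ : G →* GL (Fin n) F := σ.comp (QuotientGroup.mk' Γ)
  have h0 : ∀ φ : MulAut G, ρ.comp φ.toMonoidHom = ρ → ∀ x, φ x * x⁻¹ ∈ Γ := by
    intro φ h x
    have h1 := DFunLike.congr_fun h x
    have h2 : ((φ x : G) : G ⧸ Γ) = ((x : G) : G ⧸ Γ) := hσ h1
    rw [← QuotientGroup.eq_one_iff, QuotientGroup.mk_mul, QuotientGroup.mk_inv, mul_inv_eq_one]
    exact h2
  have hfinA : Finite (MulAut (G ⧸ Γ)) := Finite.of_injective _ DFunLike.coe_injective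
  refine ⟨n, ρ, ?_, ?_, h0, ?_⟩
  · refine (Set.finite_range σ).subset ?_
    rintro _ ⟨x, rfl⟩
    exact ⟨(x : G ⧸ Γ), rfl⟩
  · have h1 : (quotAut Γ).ker.FiniteIndex := Subgroup.finiteIndex_ker _
    refine Subgroup.finiteIndex_of_le (H := (quotAut Γ).ker) ?_
    have key : ∀ φ ∈ (quotAut Γ).ker, (ρ.comp (⊤ : Subgroup G).subtype).comp (res ⊤ φ) =
        ρ.comp (⊤ : Subgroup G).subtype := by
      intro φ hφ
      apply MonoidHom.ext
      intro x
      change σ ((φ (x : G) : G) : G ⧸ Γ) = σ ((x : G) : G ⧸ Γ)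
      rw [← quotAut_mk, MonoidHom.mem_ker.mp hφ]
      rfl
    intro φ hφ τ
    rw [Set.mem_singleton_iff, Set.mem_singleton_iff]
    constructor
    · intro h
      have h2 := key φ⁻¹ (Subgroup.inv_mem _ hφ)
      rw [← h, MonoidHom.comp_assoc, ← res_mul, mul_inv_cancel, res_one, MonoidHom.comp_id] at h2
      rw [h2]
      exact h
    · rintro rfl
      exact key φ hφ
  · intro φ hφ
    have h1 := (hφ (ρ.comp (⊤ : Subgroup G).subtype)).mpr rfl
    rw [Set.mem_singleton_iff] at h1
    apply h0
    apply MonoidHom.ext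
    intro x
    exact DFunLike.congr_fun h1 (⟨x, trivial⟩ : (⊤ : Subgroup G))

theorem isIrred_singleton {L : Type*} [Group L] {n : ℕ} {F : Type*} [CommRing F]
    (σ : L →* GL (Fin n) F) : IsIrred {σ} := by
  refine ⟨isAlgebraic_singleton σ, Set.singleton_nonempty σ, ?_⟩
  intro A B _ _ h
  rw [Set.singleton_subset_iff, Set.mem_union] at h
  rw [Set.singleton_subset_iff, Set.singleton_subset_iff]
  exact h

theorem isComponent_singleton {L : Type*} [Group L] {n : ℕ} {F : Type*} [CommRing F]
    (σ : L →* GL (Fin n) F) : IsComponent {σ} {σ} :=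
  ⟨⟨isIrred_singleton σ, subset_rfl⟩, fun _ hW _ => hW.2⟩

end Converse

end Pool.MP_59b15d_al.H24
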